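import Pool.Agent.L0h7.RG.Stm

/-!
# Group rings of finitely generated torsion-free abelian groups are regular
-/

set_option autoImplicit false

noncomputable section

namespace Pool.Agent.L0h39.RG

open Pool.Agent.L0h7.RG

/-- the first coordinate -/
def consE (r : ℕ) : (Fin (r + 1) → Multiplicative ℤ) ≃*
    Multiplicative ℤ × (Fin r → Multiplicative ℤ) where
  toFun v := (v 0, fun i => v i.succ)
  invFun w := Fin.cons w.1 w.2
  left_inv v := by
    funext i
    refine Fin.cases ?_ (fun j => ?_) i
    · rfl
    · rfl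
  right_inv w := by
    apply Prod.ext
    · rfl
    · funext i
      rfl
  map_mul' v w := rfl

theorem reg_pow (h1 : S_RGZ) (h2 : S_RIS) : ∀ (r : ℕ) (R : Type) [Ring R], Reg R →
    Reg (MonoidAlgebra R (Fin r → Multiplicative ℤ)) := by
  intro r
  induction r with
  | zero =>
    intro R _ hR
    have : Subsingleton (Fin 0 → Multiplicative ℤ) := inferInstance
    exact h2 _ _ ⟨(MonoidAlgebra.uniqueRingEquiv (R := R) (Fin 0 → Multiplicative ℤ)).symm⟩ hR
  | succ r ih =>
    intro R _ hR
    have h3 := h1 _ (ih R hR)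
    refine h2 _ _ ⟨?_⟩ h3
    exact (MonoidAlgebra.curryRingEquiv (R := R) (M := Multiplicative ℤ)
      (N := Fin r → Multiplicative ℤ)).symm.trans
        (MonoidAlgebra.mapDomainRingEquiv R (consE r).symm)

/-- a finitely generated torsion-free abelian group is free -/
theorem exists_iso (P : Type) [CommGroup P]
    (htf : ∀ g : P, ∀ k : ℕ, 0 < k → g ^ k = 1 → g = 1) (hfg : Group.FG P) :
    ∃ r : ℕ, Nonempty (P ≃* (Fin r → Multiplicative ℤ)) := by
  have hf : Module.Finite ℤ (Additive P) := by
    rw [Module.Finite.iff_addGroup_fg]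
    exact GroupFG.iff_add_fg.1 hfg
  have ht : Module.IsTorsionFree ℤ (Additive P) := by
    refine Module.isTorsionFree_iff_smul_eq_zero.2 ?_
    intro n x hx
    by_contra hcon
    rw [not_or] at hcon
    have h1 : (x.toMul : P) ^ n.natAbs = 1 := by
      have h2 : (x.toMul : P) ^ n = 1 := hx
      rcases Int.natAbs_eq n with h3 | h3
      · rw [h3, zpow_natCast] at h2
        exact h2
      · rw [h3, zpow_neg, zpow_natCast, inv_eq_one] at h2
        exact h2
    exact hcon.2 (htf _ _ (Int.natAbs_pos.2 hcon.1) h1)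
  obtain ⟨r, b⟩ := Module.basisOfFiniteTypeTorsionFree' (R := ℤ) (M := Additive P)
  refine ⟨r, ⟨?_⟩⟩
  have e1 : Additive P ≃+ (Fin r → ℤ) := b.equivFun.toAddEquiv
  exact
    { toFun := fun g i => Multiplicative.ofAdd (e1 (Additive.ofMul g) i)
      invFun := fun v => (e1.symm (fun i => (v i).toAdd)).toMul
      left_inv := fun g => by
        show (e1.symm (fun i => e1 (Additive.ofMul g) i)).toMul = g
        have : (fun i => e1 (Additive.ofMul g) i) = e1 (Additive.ofMul g) := rfl
        rw [this, AddEquiv.symm_apply_apply]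
        rfl
      right_inv := fun v => by
        funext i
        show Multiplicative.ofAdd (e1 (e1.symm (fun i => (v i).toAdd)) i) = v i
        rw [AddEquiv.apply_symm_apply]
        rfl
      map_mul' := fun g h => by
        funext i
        show Multiplicative.ofAdd (e1 (Additive.ofMul g + Additive.ofMul h) i) = _
        rw [map_add]
        rfl }

theorem t_RGA (h1 : S_RGZ) (h2 : S_RIS) : S_RGA := by
  intro R _ hR P hG hcomm htf hfg
  let _ : CommGroup P := { hG with mul_comm := hcomm }
  obtain ⟨r, ⟨e⟩⟩ := exists_iso P htf hfg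
  exact h2 _ _ ⟨MonoidAlgebra.mapDomainRingEquiv R e.symm⟩ (reg_pow h1 h2 r R hR)

end Pool.Agent.L0h39.RG
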