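import Pool.Agent.L0h7.RG.Stm

/-!
# Regularity is invariant under ring isomorphisms
-/

set_option autoImplicit false

noncomputable section

namespace Pool.Agent.L0h39.RG

open Pool.Agent.L0h7.RG

section

variable {A B : Type} [Ring A] [Ring B] (e : A ≃+* B)

/-- transport of a linear map on `Aᵏ` -/
def tr {M N : Type} [AddCommGroup M] [Module A M] [AddCommGroup N] [Module B N] (φ : M ≃+ N)
    (hφ : ∀ (a : A) (x : M), φ (a • x) = e a • φ x) {k : ℕ} (π : (Fin k → A) →ₗ[A] M) :
    (Fin k → B) →ₗ[B] N where
  toFun v := φ (π (fun i => e.symm (v i)))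
  map_add' v w := by
    rw [← map_add, ← map_add]
    congr 2
    funext i
    exact map_add e.symm _ _
  map_smul' b v := by
    rw [RingHom.id_apply]
    have h1 : (fun i => e.symm ((b • v) i)) = e.symm b • (fun i => e.symm (v i)) := by
      funext i
      rw [Pi.smul_apply, Pi.smul_apply, smul_eq_mul, smul_eq_mul, map_mul]
    rw [h1, map_smul, hφ, RingEquiv.apply_symm_apply]

lemma tr_apply {M N : Type} [AddCommGroup M] [Module A M] [AddCommGroup N] [Module B N]
    (φ : M ≃+ N) (hφ : ∀ (a : A) (x : M), φ (a • x) = e a • φ x) {k : ℕ}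
    (π : (Fin k → A) →ₗ[A] M) (v : Fin k → B) :
    tr e φ hφ π v = φ (π (fun i => e.symm (v i))) := rfl

lemma tr_surj {M N : Type} [AddCommGroup M] [Module A M] [AddCommGroup N] [Module B N]
    (φ : M ≃+ N) (hφ : ∀ (a : A) (x : M), φ (a • x) = e a • φ x) {k : ℕ}
    (π : (Fin k → A) →ₗ[A] M) (hπ : Function.Surjective π) :
    Function.Surjective (tr e φ hφ π) := by
  intro y
  obtain ⟨x, hx⟩ := φ.surjective y
  obtain ⟨v, hv⟩ := hπ x
  refine ⟨fun i => e (v i), ?_⟩
  rw [tr_apply]
  have h1 : (fun i => e.symm (e (v i))) = v := by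
    funext i
    exact e.symm_apply_apply _
  rw [h1, hv, hx]

lemma fin_tr {M N : Type} [AddCommGroup M] [Module A M] [AddCommGroup N] [Module B N]
    (φ : M ≃+ N) (hφ : ∀ (a : A) (x : M), φ (a • x) = e a • φ x) (h : Module.Finite A M) :
    Module.Finite B N := by
  obtain ⟨k, π, hπ⟩ := Module.Finite.exists_fin' A M
  exact Module.Finite.of_surjective _ (tr_surj e φ hφ π hπ)

theorem pd_tr : ∀ (n : ℕ) {M N : Type} [AddCommGroup M] [Module A M] [AddCommGroup N] [Module B N]
    (φ : M ≃+ N) (_ : ∀ (a : A) (x : M), φ (a • x) = e a • φ x), PD A n M → PD B n N := by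
  intro n
  induction n with
  | zero =>
    intro M N _ _ _ _ φ hφ h
    obtain ⟨h1, h2⟩ := h
    refine ⟨fin_tr e φ hφ h1, ?_⟩
    obtain ⟨k, π, hπ⟩ := Module.Finite.exists_fin' A M
    obtain ⟨σ, hσ⟩ := Module.projective_lifting_property π LinearMap.id hπ
    have hσ' : ∀ x, π (σ x) = x := fun x => LinearMap.congr_fun hσ x
    let τ : N →ₗ[B] (Fin k → B) :=
      { toFun := fun y => fun i => e (σ (φ.symm y) i)
        map_add' := fun y z => by
          funext i
          rw [map_add, map_add, Pi.add_apply, map_add]
          rfl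
        map_smul' := fun b y => by
          funext i
          have h3 : φ.symm (b • y) = e.symm b • φ.symm y := by
            apply φ.injective
            rw [hφ, AddEquiv.apply_symm_apply, AddEquiv.apply_symm_apply,
              RingEquiv.apply_symm_apply]
          rw [h3, map_smul, Pi.smul_apply, smul_eq_mul, map_mul, RingEquiv.apply_symm_apply]
          rfl }
    refine Module.Projective.of_split τ (tr e φ hφ π) ?_
    ext y
    rw [LinearMap.comp_apply, LinearMap.id_apply, tr_apply]
    have h4 : (fun i => e.symm (τ y i)) = σ (φ.symm y) := by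
      funext i
      exact e.symm_apply_apply _
    rw [h4, hσ', AddEquiv.apply_symm_apply]
  | succ n ih =>
    intro M N _ _ _ _ φ hφ h
    obtain ⟨k, π, hπ, hk⟩ := h
    refine ⟨k, tr e φ hφ π, tr_surj e φ hφ π hπ, ?_⟩
    let ψ : LinearMap.ker π ≃+ LinearMap.ker (tr e φ hφ π) :=
      { toFun := fun v => ⟨fun i => e (v.1 i), by
          rw [LinearMap.mem_ker, tr_apply]
          have h1 : (fun i => e.symm (e (v.1 i))) = v.1 := by
            funext i
            exact e.symm_apply_apply _
          rw [h1, LinearMap.mem_ker.1 v.2, map_zero]⟩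
        invFun := fun w => ⟨fun i => e.symm (w.1 i), by
          have h1 := LinearMap.mem_ker.1 w.2
          rw [tr_apply] at h1
          rw [LinearMap.mem_ker]
          exact (map_eq_zero_iff φ φ.injective).1 h1⟩
        left_inv := fun v => by
          apply Subtype.ext
          funext i
          exact e.symm_apply_apply _
        right_inv := fun w => by
          apply Subtype.ext
          funext i
          exact e.apply_symm_apply _
        map_add' := fun v w => by
          apply Subtype.ext
          funext i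
          exact map_add e _ _ }
    refine ih ψ ?_ hk
    intro a v
    apply Subtype.ext
    funext i
    exact map_mul e _ _

end

theorem t_RIS : S_RIS := by
  intro A B _ _ ⟨e⟩ ⟨h1, h2⟩
  refine ⟨isNoetherianRing_of_ringEquiv A e, ?_⟩
  intro M _ _ hM
  let _ : Module A M := Module.compHom M (e : A →+* B)
  have h3 : ∀ (a : A) (x : M), a • x = e a • x := fun a x => rfl
  have h4 : Module.Finite A M := by
    refine fin_tr e.symm (AddEquiv.refl M) ?_ hM
    intro b x
    show b • x = e.symm b • x
    rw [h3, RingEquiv.apply_symm_apply]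
  obtain ⟨n, hn⟩ := h2 M h4
  exact ⟨n, pd_tr e n (AddEquiv.refl M) (fun a x => h3 a x) hn⟩

end Pool.Agent.L0h39.RG
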